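import Pool.Agent.H848R3.RI.Final

/-!
# The rigid synchrony conjecture

Every rigid synchrony pattern of a hyperbolic periodic orbit of an admissible vector field of a
coupled cell network is balanced.

The definitions `Network`, `InputIso`, `Ph`, `st`, `Admissible`, `Tup`, `tup` are in
`Pool/Agent/H848R3/RI/Net.lean`, `SmAdm` is in `Pool/Agent/H848R3/RI/Bump.lean`, `IsFund` is in
`Pool/Agent/H848R3/RI/Lin.lean`, and `PeriodicOrbit`, `Hyperbolic` are in
`Pool/Agent/H848R3/RI/Hyp.lean`.

Idea of the proof. Among all small smooth admissible deformations of the orbit and all times choose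
one at which the number of pairs of nodes with different states plus the number of moving nodes is
maximal. There the relation of equal states is balanced (`match_all`: bump perturbations would
otherwise separate two nodes further, or, for nodes at rest, a dimension count applies), so equal
states persist for all times (`invariant`). For a deformation that is close enough to the orbit,
nodes synchronous on the deformation are synchronous on the orbit, and by rigidity the converse
holds as well.
-/

set_option autoImplicit false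

open Pool.Agent.H848R3.RI

namespace Pool.Agent.Results.MP_e1010f_an.RigidSynchrony

/-- The synchrony pattern of the curve `x`: nodes `c` and `d` are related if `x_c(t) = x_d(t)` for
all `t`. -/
def Synchronous {N : Network} {V : N.SType → Type} (x : ℝ → Ph N V) (c d : N.Node) : Prop :=
  ∀ t, st (x t) c = st (x t) d

/-- A relation `r` on the nodes is balanced if whenever `r c d` there is an input isomorphism
`β : I(c) → I(d)` with `r (tail e) (tail β(e))` for all `e` in `I(c)`. -/
def Balanced {N : Network} (r : N.Node → N.Node → Prop) : Prop :=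
  ∀ c d, r c d → ∃ β : InputIso N c d, ∀ e : N.In c, r (N.tail e.1) (N.tail (β.toEquiv e).1)

/-- The synchrony pattern of the `T`-periodic orbit `x` of the admissible field `f` is rigid: there
is `δ > 0` such that for every smooth admissible `h` with `‖h‖ < δ`, `‖Dh‖ < δ` everywhere, nodes
that are synchronous on `x` are synchronous on the nearby periodic orbit of `f + h` (every periodic
orbit `x'` of `f + h` of period `T'`, `|T' - T| < δ`, that is `δ`-close to `x` on `[0, T]`). -/
def RigidPattern {N : Network} {V : N.SType → Type} [∀ τ, NormedAddCommGroup (V τ)]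
    [∀ τ, NormedSpace ℝ (V τ)] (f : Ph N V → Ph N V) (x : ℝ → Ph N V) (T : ℝ) : Prop :=
  ∃ δ > 0, ∀ h : Ph N V → Ph N V, SmAdm h → (∀ z, ‖h z‖ < δ ∧ ‖fderiv ℝ h z‖ < δ) →
    ∀ (x' : ℝ → Ph N V) (T' : ℝ), PeriodicOrbit (fun z => f z + h z) x' T' → |T' - T| < δ →
      (∀ t ∈ Set.Icc 0 T, ‖x' t - x t‖ < δ) →
      ∀ c d : N.Node, Synchronous x c d → Synchronous x' c d

/-- Curves close enough to a periodic orbit have no further synchronous nodes. -/
lemma exists_sep {N : Network} {V : N.SType → Type} [∀ τ, NormedAddCommGroup (V τ)]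
    [∀ τ, NormedSpace ℝ (V τ)] {x : ℝ → Ph N V} {T : ℝ} (hper : ∀ t, x (t + T) = x t)
    (hT : 0 < T) : ∃ η > 0, ∀ x' : ℝ → Ph N V, (∀ t ∈ Set.Icc 0 T, ‖x' t - x t‖ < η) →
      ∀ a b : N.Node, Synchronous x' a b → Synchronous x a b := by
  classical
  have h1 : ∀ p : N.Node × N.Node, ∃ η > 0, ∀ x' : ℝ → Ph N V,
      (∀ t ∈ Set.Icc 0 T, ‖x' t - x t‖ < η) → Synchronous x' p.1 p.2 →
        Synchronous x p.1 p.2 := by
    rintro ⟨a, b⟩
    by_cases hab : Synchronous x a b
    · exact ⟨1, one_pos, fun _ _ _ => hab⟩
    · unfold Synchronous at hab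
      push Not at hab
      obtain ⟨t, ht⟩ := hab
      have hp : Function.Periodic x T := hper
      obtain ⟨s, hs, hs2⟩ := hp.exists_mem_Ico₀ hT t
      rw [hs2] at ht
      obtain ⟨η, hη, hb⟩ := Metric.isOpen_iff.1 (isClosed_st (V := V) a b).isOpen_compl (x s) ht
      refine ⟨η, hη, fun x' hx' hs' => ?_⟩
      exact absurd (hs' s) (hb (by
        rw [Metric.mem_ball, dist_eq_norm]
        exact hx' s ⟨hs.1, hs.2.le⟩))
  choose η hη hη2 using h1
  rcases isEmpty_or_nonempty (N.Node × N.Node) with he | hne
  · exact ⟨1, one_pos, fun x' _ a b _ => (he.false (a, b)).elim⟩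
  · obtain ⟨p₀, hp₀⟩ := Finite.exists_min η
    exact ⟨η p₀, hη p₀, fun x' hx' a b => hη2 (a, b) x' fun t ht =>
      (hx' t ht).trans_le (hp₀ (a, b))⟩

/-- **The rigid synchrony conjecture**: for every network, every admissible `C¹` vector field `f`
and every hyperbolic periodic orbit of `f`, every rigid synchrony pattern is balanced. -/
theorem result (N : Network) (V : N.SType → Type) [∀ τ, NormedAddCommGroup (V τ)]
    [∀ τ, NormedSpace ℝ (V τ)] [∀ τ, FiniteDimensional ℝ (V τ)] [∀ τ, Nontrivial (V τ)]
    (f : Ph N V → Ph N V) (hf : Admissible f) (x : ℝ → Ph N V) (T : ℝ)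
    (hx : PeriodicOrbit f x T) (hh : Hyperbolic f x T) (hr : RigidPattern f x T) :
    Balanced (Synchronous x) := by
  obtain ⟨δ₁, hδ₁, hrig⟩ := hr
  obtain ⟨δ₂, hδ₂, hsep⟩ := exists_sep hx.per hx.pos
  set δ : ℝ := min δ₁ δ₂ with hδd
  have hδ : 0 < δ := lt_min hδ₁ hδ₂
  have hle1 : δ ≤ δ₁ := min_le_left _ _
  have hle2 : δ ≤ δ₂ := min_le_right _ _
  have hp : PerOrb f x T := hx.perOrb hf.smooth
  have hC : Cls f x T δ f x T :=
    { adm := hf
      dif := by
        have h0 : (fun z => f z - f z) = fun _ : Ph N V => (0 : Ph N V) := by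
          funext z; exact sub_self _
        rw [h0]; exact SmAdm.zero
      near := ⟨0, hδ, fun z => by simp⟩
      orb := hp
      nd := hh.nDeg hf.smooth hp
      per := by simpa using hδ
      close := fun t _ => by simpa using hδ }
  obtain ⟨f₁, x₁, T₁, t₀, hM⟩ := exists_max hC
  have hmatch := match_all hp.continuous hM hf.smooth
  -- nodes in equal states at the maximiser are synchronous on the orbit
  have hback : ∀ a b, st (x₁ t₀) a = st (x₁ t₀) b → Synchronous x a b := fun a b hab =>
    hsep x₁ (fun t ht => (hM.cls.close t ht).trans_le hle2) a b fun t =>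
      invariant hM.cls.adm hM.cls.orb.sol hM.cls.orb.per hM.cls.orb.pos hmatch a b hab t
  intro c d hcd
  have hcd₁ : Synchronous x₁ c d := by
    have he : (fun z => f z + (f₁ z - f z)) = f₁ := by funext z; abel
    obtain ⟨δ', h1, h2⟩ := hM.cls.near
    refine hrig (fun z => f₁ z - f z) hM.cls.dif
      (fun z => ⟨(h2 z).1.trans_lt (h1.trans_le hle1), ?_⟩) x₁ T₁
      (by rw [he]; exact hM.cls.orb.periodicOrbit) (hM.cls.per.trans_le hle1)
      (fun t ht => (hM.cls.close t ht).trans_le hle1) c d hcd
    have d1 := (hM.cls.adm.smooth.differentiable one_ne_zero z).hasFDerivAt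
    have d2 := (hf.smooth.differentiable one_ne_zero z).hasFDerivAt
    have d3 : fderiv ℝ (fun z => f₁ z - f z) z = fderiv ℝ f₁ z - fderiv ℝ f z :=
      (d1.sub d2).fderiv
    rw [d3]
    exact (h2 z).2.trans_lt (h1.trans_le hle1)
  obtain ⟨β, hβ⟩ := hmatch c d (hcd₁ t₀)
  exact ⟨β, fun e => hback _ _ (hβ e)⟩

end Pool.Agent.Results.MP_e1010f_an.RigidSynchrony
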